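import Pool.Agent.E8helper19.QC.Stm

/-!
# QC4: the logarithmic energy is symmetric and positive on differences (MP_d59d86_an)
-/

set_option autoImplicit false
open MeasureTheory Filter Topology Set

namespace Pool.Agent.E8helper42.QC

open Pool.Agent.E8helper19.QC

noncomputable section

/-! ## Frullani's integral for exponentials -/

theorem fru_bd (a b t : ℝ) (ht : 0 < t) :
    |t⁻¹ * (Real.exp (-(a * t)) - Real.exp (-(b * t)))| ≤ |b - a| * Real.exp (-(min a b * t)) := by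
  have key : ∀ a b : ℝ, a ≤ b →
      |t⁻¹ * (Real.exp (-(a * t)) - Real.exp (-(b * t)))| ≤ (b - a) * Real.exp (-(a * t)) := by
    intro a b hab
    have h1 : Real.exp (-(b * t)) = Real.exp (-(a * t)) * Real.exp (-((b - a) * t)) := by
      rw [← Real.exp_add]; ring_nf
    have h2 : 1 - (b - a) * t ≤ Real.exp (-((b - a) * t)) := by
      have := Real.add_one_le_exp (-((b - a) * t)); linarith
    have h3 : Real.exp (-((b - a) * t)) ≤ 1 := by
      rw [Real.exp_le_one_iff]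
      nlinarith
    have h4 := Real.exp_pos (-(a * t))
    rw [h1, abs_mul, abs_of_pos (inv_pos.mpr ht), abs_of_nonneg (by nlinarith)]
    rw [inv_mul_le_iff₀ ht]
    nlinarith
  rcases le_total a b with h | h
  · rw [abs_of_nonneg (by linarith : 0 ≤ b - a), min_eq_left h]
    exact key a b h
  · rw [abs_sub_comm b a, abs_of_nonneg (by linarith : 0 ≤ a - b), min_eq_right h]
    have := key b a h
    rw [← abs_neg]
    convert this using 2
    ring

theorem exp_int (a : ℝ) (ha : 0 < a) : IntegrableOn (fun t : ℝ => Real.exp (-(a * t))) (Ioi 0) := by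
  have := exp_neg_integrableOn_Ioi 0 ha
  simpa [neg_mul] using this

theorem fru_int (a b : ℝ) (ha : 0 < a) (hb : 0 < b) :
    IntegrableOn (fun t : ℝ => t⁻¹ * (Real.exp (-(a * t)) - Real.exp (-(b * t)))) (Ioi 0) := by
  have h := (exp_int (min a b) (lt_min ha hb)).const_mul |b - a|
  refine Integrable.mono' h ?_ ?_
  · exact (by fun_prop : Measurable (fun t : ℝ =>
      t⁻¹ * (Real.exp (-(a * t)) - Real.exp (-(b * t))))).aestronglyMeasurable
  · filter_upwards [ae_restrict_mem measurableSet_Ioi] with t ht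
    rw [Real.norm_eq_abs]
    exact fru_bd a b t ht

theorem fru_eq (a b : ℝ) (ha : 0 < a) (hb : 0 < b) :
    ∫ t in Ioi (0 : ℝ), t⁻¹ * (Real.exp (-(a * t)) - Real.exp (-(b * t))) = Real.log (b / a) := by
  have h := Frullani.integral_Ioi_eq (f := fun t : ℝ => Real.exp (-t)) (a := a) (b := b)
    (L := 1) (R := 0) ?_ ha hb ?_ ?_ ?_
  · simpa [smul_eq_mul] using h
  · exact (by fun_prop : Continuous (fun t : ℝ => Real.exp (-t))).locallyIntegrable.locallyIntegrableOn _
  · have : Tendsto (fun t : ℝ => Real.exp (-t)) (𝓝 0) (𝓝 1) := by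
      have h := (by fun_prop : Continuous (fun t : ℝ => Real.exp (-t))).tendsto 0
      simpa using h
    exact this.mono_left nhdsWithin_le_nhds
  · exact Real.tendsto_exp_neg_atTop_nhds_zero
  · simpa [smul_eq_mul] using fru_int a b ha hb

theorem fru_abs (a b : ℝ) (ha : 0 < a) (hb : 0 < b) :
    ∫ t in Ioi (0 : ℝ), ‖t⁻¹ * (Real.exp (-(a * t)) - Real.exp (-(b * t)))‖ =
      |Real.log (b / a)| := by
  rcases le_total a b with h | h
  · have e : ∀ t ∈ Ioi (0 : ℝ), ‖t⁻¹ * (Real.exp (-(a * t)) - Real.exp (-(b * t)))‖ =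
        t⁻¹ * (Real.exp (-(a * t)) - Real.exp (-(b * t))) := by
      intro t ht
      have ht' : (0 : ℝ) < t := ht
      rw [Real.norm_eq_abs, abs_of_nonneg]
      have : Real.exp (-(b * t)) ≤ Real.exp (-(a * t)) := by
        rw [Real.exp_le_exp]; nlinarith
      have h2 := inv_pos.mpr ht'
      nlinarith
    rw [setIntegral_congr_fun measurableSet_Ioi e, fru_eq a b ha hb, abs_of_nonneg]
    exact Real.log_nonneg (by rw [le_div_iff₀ ha]; linarith)
  · have e : ∀ t ∈ Ioi (0 : ℝ), ‖t⁻¹ * (Real.exp (-(a * t)) - Real.exp (-(b * t)))‖ =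
        -(t⁻¹ * (Real.exp (-(a * t)) - Real.exp (-(b * t)))) := by
      intro t ht
      have ht' : (0 : ℝ) < t := ht
      rw [Real.norm_eq_abs, abs_of_nonpos]
      have : Real.exp (-(a * t)) ≤ Real.exp (-(b * t)) := by
        rw [Real.exp_le_exp]; nlinarith
      have h2 := inv_pos.mpr ht'
      nlinarith
    rw [setIntegral_congr_fun measurableSet_Ioi e, integral_neg, fru_eq a b ha hb, abs_of_nonpos]
    exact Real.log_nonpos (by positivity) (by rw [div_le_one ha]; linarith)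

/-! ## Integrability of the logarithmic kernel -/

theorem log_bd (s r : ℝ) (hs : 0 < s) (hr : 0 ≤ r) : |Real.log r| ≤ r ^ (-s) / s + r := by
  rcases hr.eq_or_lt with h | h
  · rw [← h, Real.log_zero, Real.zero_rpow (by linarith)]
    simp
  · have h1 : 0 < r ^ (-s) := Real.rpow_pos_of_pos h _
    have h2 : Real.log (r ^ (-s)) ≤ r ^ (-s) - 1 := Real.log_le_sub_one_of_pos h1
    rw [Real.log_rpow h] at h2
    have h3 := Real.log_le_sub_one_of_pos h
    rw [abs_le]
    have h4 : 0 < r ^ (-s) / s := by positivity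
    constructor
    · have h5 : -Real.log r ≤ r ^ (-s) / s := by
        rw [le_div_iff₀ hs]
        nlinarith
      linarith
    · linarith

variable {n : ℕ} {ν : Measure (E n)} {s M : ℝ}

theorem log_meas : Measurable (fun z : E n × E n => Real.log ‖z.1 - z.2‖) :=
  Real.measurable_log.comp ((measurable_fst.sub measurable_snd).norm)

theorem log_bd2 (hs : 0 < s) (x y : E n) :
    |Real.log ‖x - y‖| ≤ ‖x - y‖ ^ (-s) / s + (‖x‖ + ‖y‖) := by
  have h1 := log_bd s ‖x - y‖ hs (norm_nonneg _)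
  have h2 := norm_sub_le x y
  linarith

theorem log_int (hs : 0 < s) (h : Good ν s M) :
    Integrable (fun z : E n × E n => Real.log ‖z.1 - z.2‖) (ν.prod ν) := by
  have := h.fin
  have hb : ∀ x, Integrable (fun y => ‖x - y‖ ^ (-s) / s + (‖x‖ + ‖y‖)) ν := fun x =>
    ((h.rint x).div_const s).add ((integrable_const _).add h.mom)
  rw [integrable_prod_iff log_meas.aestronglyMeasurable]
  have h1 : ∀ x, Integrable (fun y => Real.log ‖x - y‖) ν := by
    intro x
    refine Integrable.mono' (hb x) ?_ (ae_of_all _ fun y => ?_)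
    · exact (Real.measurable_log.comp ((measurable_const.sub measurable_id).norm)).aestronglyMeasurable
    · rw [Real.norm_eq_abs]
      exact log_bd2 hs x y
  refine ⟨ae_of_all _ h1, ?_⟩
  have hc : Integrable (fun x : E n => (M / s + ∫ y, ‖y‖ ∂ν) + ν.real univ * ‖x‖) ν :=
    (integrable_const _).add (h.mom.const_mul _)
  refine Integrable.mono' hc ?_ (ae_of_all _ fun x => ?_)
  · exact (log_meas.norm.aestronglyMeasurable (μ := ν.prod ν)).integral_prod_right'
  · rw [Real.norm_eq_abs, abs_of_nonneg (integral_nonneg fun _ => norm_nonneg _)]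
    calc ∫ y, ‖Real.log ‖x - y‖‖ ∂ν ≤ ∫ y, (‖x - y‖ ^ (-s) / s + (‖x‖ + ‖y‖)) ∂ν :=
          integral_mono (h1 x).norm (hb x) fun y => by
            rw [Real.norm_eq_abs]
            exact log_bd2 hs x y
      _ = (∫ y, ‖x - y‖ ^ (-s) ∂ν) / s + (ν.real univ * ‖x‖ + ∫ y, ‖y‖ ∂ν) := by
          have i1 : Integrable (fun y : E n => ‖x‖ + ‖y‖) ν := (integrable_const _).add h.mom
          rw [integral_add ((h.rint x).div_const s) i1,
            integral_div, integral_add (integrable_const _) h.mom, integral_const, smul_eq_mul]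
      _ ≤ M / s + (ν.real univ * ‖x‖ + ∫ y, ‖y‖ ∂ν) := by
          have := h.rb x
          gcongr
      _ = _ := by ring

/-- the diagonal is null -/
theorem diag_null (h : Good ν s M) : ∀ᵐ z ∂(ν.prod ν), z.1 ≠ z.2 := by
  have := h.fin
  have hm : MeasurableSet {z : E n × E n | z.1 ≠ z.2} :=
    (measurableSet_eq_fun measurable_fst measurable_snd).compl
  rw [Measure.ae_prod_iff_ae_ae hm]
  refine ae_of_all _ fun x => ?_
  have : ∀ᵐ y ∂ν, y ≠ x := by
    rw [ae_iff]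
    simpa using h.atom x
  filter_upwards [this] with y hy using fun e => hy e.symm

/-! ## Gaussian kernels -/

theorem gauss_pos (t : ℝ) (ht : 0 < t) : 0 < ∫ w : E n, Real.exp (-(4 * t * ‖w‖ ^ 2)) := by
  have h := GaussianFourier.integral_rexp_neg_mul_sq_norm (V := E n) (b := 4 * t) (by positivity)
  have h2 : ∫ w : E n, Real.exp (-(4 * t * ‖w‖ ^ 2)) = ∫ w : E n, Real.exp (-(4 * t) * ‖w‖ ^ 2) := by
    simp [neg_mul]
  rw [h2, h]
  positivity

theorem gauss_int (t : ℝ) (ht : 0 < t) : Integrable (fun w : E n => Real.exp (-(4 * t * ‖w‖ ^ 2))) := by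
  by_contra hc
  have := gauss_pos (n := n) t ht
  rw [integral_undef hc] at this
  exact lt_irrefl _ this

theorem par (t : ℝ) (x y w : E n) :
    Real.exp (-(2 * t * ‖x - w‖ ^ 2)) * Real.exp (-(2 * t * ‖y - w‖ ^ 2)) =
      Real.exp (-(t * ‖x - y‖ ^ 2)) *
        Real.exp (-(4 * t * ‖w - (2 : ℝ)⁻¹ • (x + y)‖ ^ 2)) := by
  rw [← Real.exp_add, ← Real.exp_add]
  congr 1
  have h := parallelogram_law_with_norm ℝ (x - w) (y - w)
  have e1 : x - w - (y - w) = x - y := by abel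
  have e2 : x - w + (y - w) = (-2 : ℝ) • (w - (2 : ℝ)⁻¹ • (x + y)) := by
    rw [smul_sub, smul_smul]
    norm_num
    rw [two_smul]
    abel
  rw [e1, e2, norm_smul] at h
  have h3 : ‖(-2 : ℝ)‖ = 2 := by norm_num
  rw [h3] at h
  linear_combination t * h

theorem par_int (t : ℝ) (ht : 0 < t) (x y : E n) :
    Integrable (fun w => Real.exp (-(2 * t * ‖x - w‖ ^ 2)) * Real.exp (-(2 * t * ‖y - w‖ ^ 2))) := by
  simp_rw [par t x y]
  exact ((gauss_int t ht).comp_sub_right _).const_mul _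

theorem par_eq (t : ℝ) (x y : E n) :
    ∫ w, Real.exp (-(2 * t * ‖x - w‖ ^ 2)) * Real.exp (-(2 * t * ‖y - w‖ ^ 2)) =
      (∫ w : E n, Real.exp (-(4 * t * ‖w‖ ^ 2))) * Real.exp (-(t * ‖x - y‖ ^ 2)) := by
  simp_rw [par t x y]
  rw [integral_const_mul, mul_comm]
  congr 1
  exact integral_sub_right_eq_self (fun w : E n => Real.exp (-(4 * t * ‖w‖ ^ 2))) _

/-- the Gaussian kernel is positive definite -/
theorem gauss_pd [IsFiniteMeasure ν] (σ : E n → ℝ) (hσ : Measurable σ) (B : ℝ)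
    (hB : ∀ x, |σ x| ≤ B) (t : ℝ) (ht : 0 < t) :
    0 ≤ ∫ z : E n × E n, Real.exp (-(t * ‖z.1 - z.2‖ ^ 2)) * (σ z.1 * σ z.2) ∂(ν.prod ν) := by
  have hB0 : 0 ≤ B := (abs_nonneg _).trans (hB 0)
  set c := ∫ w : E n, Real.exp (-(4 * t * ‖w‖ ^ 2)) with hc
  have hcp : 0 < c := gauss_pos t ht
  set K : (E n × E n) × E n → ℝ := fun q =>
    (Real.exp (-(2 * t * ‖q.1.1 - q.2‖ ^ 2)) * Real.exp (-(2 * t * ‖q.1.2 - q.2‖ ^ 2))) *
      (σ q.1.1 * σ q.1.2) with hK
  have hKm : Measurable K := by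
    apply Measurable.mul
    · fun_prop
    · exact (hσ.comp (measurable_fst.comp measurable_fst)).mul
        (hσ.comp (measurable_snd.comp measurable_fst))
  have hKi : Integrable K ((ν.prod ν).prod volume) := by
    rw [integrable_prod_iff hKm.aestronglyMeasurable]
    refine ⟨ae_of_all _ fun z => (par_int t ht z.1 z.2).mul_const (σ z.1 * σ z.2), ?_⟩
    have e : ∀ z : E n × E n, ∫ w, ‖K (z, w)‖ =
        c * Real.exp (-(t * ‖z.1 - z.2‖ ^ 2)) * |σ z.1 * σ z.2| := by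
      intro z
      have e1 : ∀ w, ‖K (z, w)‖ = (Real.exp (-(2 * t * ‖z.1 - w‖ ^ 2)) *
          Real.exp (-(2 * t * ‖z.2 - w‖ ^ 2))) * |σ z.1 * σ z.2| := by
        intro w
        simp only [hK, Real.norm_eq_abs]
        rw [abs_mul, abs_of_pos (by positivity)]
      simp_rw [e1]
      rw [integral_mul_const, par_eq]
    simp_rw [e]
    refine Integrable.of_bound ?_ (c * 1 * (B * B)) (ae_of_all _ fun z => ?_)
    · have : Measurable (fun z : E n × E n =>
          c * Real.exp (-(t * ‖z.1 - z.2‖ ^ 2)) * |σ z.1 * σ z.2|) := by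
        apply Measurable.mul
        · fun_prop
        · exact ((hσ.comp measurable_fst).mul (hσ.comp measurable_snd)).norm
      exact this.aestronglyMeasurable
    · rw [Real.norm_eq_abs, abs_of_nonneg (by positivity), abs_mul]
      have h1 : Real.exp (-(t * ‖z.1 - z.2‖ ^ 2)) ≤ 1 := by
        rw [Real.exp_le_one_iff]
        have : 0 ≤ t * ‖z.1 - z.2‖ ^ 2 := by positivity
        linarith
      have h2 := hB z.1
      have h3 := hB z.2
      have h4 := abs_nonneg (σ z.1)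
      have h5 := abs_nonneg (σ z.2)
      have h6 : |σ z.1| * |σ z.2| ≤ B * B := mul_le_mul h2 h3 h5 hB0
      have h7 : c * Real.exp (-(t * ‖z.1 - z.2‖ ^ 2)) ≤ c * 1 :=
        mul_le_mul_of_nonneg_left h1 hcp.le
      exact mul_le_mul h7 h6 (by positivity) (by positivity)
  have h1 : c * ∫ z : E n × E n, Real.exp (-(t * ‖z.1 - z.2‖ ^ 2)) * (σ z.1 * σ z.2) ∂(ν.prod ν) =
      ∫ w, (∫ x, Real.exp (-(2 * t * ‖x - w‖ ^ 2)) * σ x ∂ν) ^ 2 := by
    have e1 : ∀ z : E n × E n, ∫ w, K (z, w) =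
        c * (Real.exp (-(t * ‖z.1 - z.2‖ ^ 2)) * (σ z.1 * σ z.2)) := by
      intro z
      simp only [hK]
      rw [integral_mul_const, par_eq]
      ring
    have e2 : ∀ w, ∫ z, K (z, w) ∂(ν.prod ν) =
        (∫ x, Real.exp (-(2 * t * ‖x - w‖ ^ 2)) * σ x ∂ν) ^ 2 := by
      intro w
      rw [sq, ← integral_prod_mul]
      congr 1
      ext z
      simp only [hK]
      ring
    rw [← integral_const_mul]
    simp_rw [← e1, ← e2]
    exact integral_integral_swap hKi
  have h2 : 0 ≤ c * ∫ z : E n × E n,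
      Real.exp (-(t * ‖z.1 - z.2‖ ^ 2)) * (σ z.1 * σ z.2) ∂(ν.prod ν) := by
    rw [h1]
    exact integral_nonneg fun w => sq_nonneg _
  exact nonneg_of_mul_nonneg_right h2 hcp

/-! ## Positivity of the logarithmic energy -/

theorem energy_pos (hs : 0 < s) (h : Good ν s M) (σ : E n → ℝ) (hσ : Measurable σ) (B : ℝ)
    (hB : ∀ x, |σ x| ≤ B) (h0 : ∫ x, σ x ∂ν = 0) :
    0 ≤ ∫ z : E n × E n, -Real.log ‖z.1 - z.2‖ * (σ z.1 * σ z.2) ∂(ν.prod ν) := by
  have := h.fin
  have hB0 : 0 ≤ B := (abs_nonneg _).trans (hB 0)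
  have hσσ : Measurable (fun z : E n × E n => σ z.1 * σ z.2) :=
    (hσ.comp measurable_fst).mul (hσ.comp measurable_snd)
  have hσb : ∀ z : E n × E n, ‖σ z.1 * σ z.2‖ ≤ B * B := by
    intro z
    rw [Real.norm_eq_abs, abs_mul]
    exact mul_le_mul (hB _) (hB _) (abs_nonneg _) hB0
  set H : (E n × E n) × ℝ → ℝ := fun q =>
    (q.2⁻¹ * (Real.exp (-(‖q.1.1 - q.1.2‖ ^ 2 * q.2)) - Real.exp (-(1 * q.2)))) *
      (σ q.1.1 * σ q.1.2) with hH
  have hHm : Measurable H := by
    apply Measurable.mul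
    · fun_prop
    · exact hσσ.comp measurable_fst
  have hne := diag_null h
  have hlog : ∀ z : E n × E n, z.1 ≠ z.2 → Real.log (1 / ‖z.1 - z.2‖ ^ 2) =
      2 * -Real.log ‖z.1 - z.2‖ := by
    intro z hz
    rw [one_div, Real.log_inv, Real.log_pow]
    push_cast
    ring
  have hHi : Integrable H ((ν.prod ν).prod (volume.restrict (Ioi (0 : ℝ)))) := by
    rw [integrable_prod_iff hHm.aestronglyMeasurable]
    constructor
    · filter_upwards [hne] with z hz
      have hr : 0 < ‖z.1 - z.2‖ ^ 2 := by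
        have := norm_pos_iff.mpr (sub_ne_zero.mpr hz)
        positivity
      exact (fru_int _ 1 hr one_pos).mul_const (σ z.1 * σ z.2)
    · have hI : Integrable (fun z : E n × E n =>
          (σ z.1 * σ z.2) * (2 * Real.log ‖z.1 - z.2‖)) (ν.prod ν) :=
        ((log_int hs h).const_mul 2).bdd_mul hσσ.aestronglyMeasurable (ae_of_all _ hσb)
      refine hI.norm.congr ?_
      filter_upwards [hne] with z hz
      have hr : 0 < ‖z.1 - z.2‖ ^ 2 := by
        have := norm_pos_iff.mpr (sub_ne_zero.mpr hz)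
        positivity
      have e1 : ∀ t : ℝ, ‖H (z, t)‖ = ‖t⁻¹ * (Real.exp (-(‖z.1 - z.2‖ ^ 2 * t)) -
          Real.exp (-(1 * t)))‖ * ‖σ z.1 * σ z.2‖ := by
        intro t
        simp only [hH]
        rw [norm_mul]
      simp_rw [e1]
      rw [integral_mul_const, fru_abs _ 1 hr one_pos, hlog z hz, norm_mul, mul_comm]
      congr 1
      rw [Real.norm_eq_abs, abs_mul, abs_mul, abs_neg]
  have h1 : 2 * ∫ z : E n × E n, -Real.log ‖z.1 - z.2‖ * (σ z.1 * σ z.2) ∂(ν.prod ν) =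
      ∫ t in Ioi (0 : ℝ), ∫ z, H (z, t) ∂(ν.prod ν) := by
    rw [← integral_integral_swap hHi, ← integral_const_mul]
    apply integral_congr_ae
    filter_upwards [hne] with z hz
    have hr : 0 < ‖z.1 - z.2‖ ^ 2 := by
      have := norm_pos_iff.mpr (sub_ne_zero.mpr hz)
      positivity
    simp only [hH]
    rw [integral_mul_const, fru_eq _ 1 hr one_pos, hlog z hz]
    ring
  have hσi : Integrable (fun z : E n × E n => σ z.1 * σ z.2) (ν.prod ν) :=
    Integrable.of_bound hσσ.aestronglyMeasurable (B * B) (ae_of_all _ hσb)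
  have h2 : ∀ t ∈ Ioi (0 : ℝ), 0 ≤ ∫ z, H (z, t) ∂(ν.prod ν) := by
    intro t ht
    have ht' : (0 : ℝ) < t := ht
    have e : ∀ z : E n × E n, H (z, t) =
        t⁻¹ * (Real.exp (-(t * ‖z.1 - z.2‖ ^ 2)) * (σ z.1 * σ z.2)) -
          t⁻¹ * Real.exp (-t) * (σ z.1 * σ z.2) := by
      intro z
      simp only [hH]
      rw [one_mul, mul_comm (‖z.1 - z.2‖ ^ 2) t]
      ring
    simp_rw [e]
    have i1 : Integrable (fun z : E n × E n =>
        Real.exp (-(t * ‖z.1 - z.2‖ ^ 2)) * (σ z.1 * σ z.2)) (ν.prod ν) := by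
      refine hσi.bdd_mul (c := 1) ?_ (ae_of_all _ fun z => ?_)
      · exact (by fun_prop : Measurable (fun z : E n × E n =>
          Real.exp (-(t * ‖z.1 - z.2‖ ^ 2)))).aestronglyMeasurable
      · rw [Real.norm_eq_abs, abs_of_pos (Real.exp_pos _), Real.exp_le_one_iff]
        have : 0 ≤ t * ‖z.1 - z.2‖ ^ 2 := by positivity
        linarith
    rw [integral_sub (i1.const_mul _) (hσi.const_mul _), integral_const_mul, integral_const_mul,
      integral_prod_mul (fun x => σ x) (fun x => σ x), h0, zero_mul, mul_zero, sub_zero]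
    exact mul_nonneg (inv_pos.mpr ht').le (gauss_pd σ hσ B hB t ht')
  have h3 : 0 ≤ ∫ t in Ioi (0 : ℝ), ∫ z, H (z, t) ∂(ν.prod ν) :=
    setIntegral_nonneg measurableSet_Ioi h2
  linarith

/-! ## The statement -/

theorem pot_eq (hs : 0 < s) (h : Good ν s M) (θ₁ θ₂ : E n → ℝ) (h1 : Dens ν θ₁)
    (h2 : Dens ν θ₂) :
    Integrable (fun z : E n × E n => -Real.log ‖z.1 - z.2‖ * (θ₂ z.1 * θ₁ z.2)) (ν.prod ν) ∧
    ∫ x, Pot ν θ₁ x * θ₂ x ∂ν =
      ∫ z : E n × E n, -Real.log ‖z.1 - z.2‖ * (θ₂ z.1 * θ₁ z.2) ∂(ν.prod ν) := by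
  have := h.fin
  obtain ⟨B₁, hB₁⟩ := h1.bd
  obtain ⟨B₂, hB₂⟩ := h2.bd
  have hi : Integrable (fun z : E n × E n => -Real.log ‖z.1 - z.2‖ * (θ₂ z.1 * θ₁ z.2))
      (ν.prod ν) := by
    refine (log_int hs h).neg.mul_bdd (c := B₂ * B₁) ?_ (ae_of_all _ fun z => ?_)
    · exact ((h2.meas.comp measurable_fst).mul (h1.meas.comp measurable_snd)).aestronglyMeasurable
    · rw [Real.norm_eq_abs, abs_mul, abs_of_nonneg (h2.nn _), abs_of_nonneg (h1.nn _)]
      exact mul_le_mul (hB₂ _) (hB₁ _) (h1.nn _) ((h2.nn z.1).trans (hB₂ _))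
  refine ⟨hi, ?_⟩
  rw [integral_prod _ hi]
  congr 1
  ext x
  unfold Pot
  rw [← integral_mul_const]
  congr 1
  ext y
  simp only
  ring

theorem t_POS : S_POS := by
  intro n ν s M hs h θ₁ θ₂ h1 h2
  have := h.fin
  obtain ⟨i12, e12⟩ := pot_eq hs h θ₁ θ₂ h1 h2
  obtain ⟨i21, e21⟩ := pot_eq hs h θ₂ θ₁ h2 h1
  obtain ⟨i11, e11⟩ := pot_eq hs h θ₁ θ₁ h1 h1
  obtain ⟨i22, e22⟩ := pot_eq hs h θ₂ θ₂ h2 h2
  have hsym : ∫ x, Pot ν θ₁ x * θ₂ x ∂ν = ∫ x, Pot ν θ₂ x * θ₁ x ∂ν := by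
    rw [e12, e21, ← integral_prod_swap]
    congr 1
    ext z
    simp only [Prod.fst_swap, Prod.snd_swap]
    rw [norm_sub_rev]
    ring
  refine ⟨hsym, ?_⟩
  obtain ⟨B₁, hB₁⟩ := h1.bd
  obtain ⟨B₂, hB₂⟩ := h2.bd
  have t1 : Integrable θ₁ ν := Integrable.of_bound h1.meas.aestronglyMeasurable B₁
    (ae_of_all _ fun x => by rw [Real.norm_eq_abs, abs_of_nonneg (h1.nn x)]; exact hB₁ x)
  have t2 : Integrable θ₂ ν := Integrable.of_bound h2.meas.aestronglyMeasurable B₂
    (ae_of_all _ fun x => by rw [Real.norm_eq_abs, abs_of_nonneg (h2.nn x)]; exact hB₂ x)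
  have key := energy_pos hs h (fun x => θ₁ x - θ₂ x) (h1.meas.sub h2.meas) (B₁ + B₂)
    (fun x => by
      have a1 := h1.nn x
      have a2 := h2.nn x
      have a3 := hB₁ x
      have a4 := hB₂ x
      rw [abs_le]
      constructor <;> linarith)
    (by rw [integral_sub t1 t2, h1.one, h2.one, sub_self])
  have e : ∀ z : E n × E n, -Real.log ‖z.1 - z.2‖ * ((θ₁ z.1 - θ₂ z.1) * (θ₁ z.2 - θ₂ z.2)) =
      ((-Real.log ‖z.1 - z.2‖ * (θ₁ z.1 * θ₁ z.2)) + (-Real.log ‖z.1 - z.2‖ * (θ₂ z.1 * θ₂ z.2))) -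
      ((-Real.log ‖z.1 - z.2‖ * (θ₂ z.1 * θ₁ z.2)) + (-Real.log ‖z.1 - z.2‖ * (θ₁ z.1 * θ₂ z.2))) := by
    intro z
    ring
  have j1 : Integrable (fun z : E n × E n => -Real.log ‖z.1 - z.2‖ * (θ₁ z.1 * θ₁ z.2) +
    -Real.log ‖z.1 - z.2‖ * (θ₂ z.1 * θ₂ z.2)) (ν.prod ν) := i11.add i22
  have j2 : Integrable (fun z : E n × E n => -Real.log ‖z.1 - z.2‖ * (θ₂ z.1 * θ₁ z.2) +
    -Real.log ‖z.1 - z.2‖ * (θ₁ z.1 * θ₂ z.2)) (ν.prod ν) := i12.add i21
  simp_rw [e] at key
  rw [integral_sub j1 j2, integral_add i11 i22, integral_add i12 i21,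
    ← e11, ← e22, ← e12, ← e21] at key
  linarith

end

end Pool.Agent.E8helper42.QC
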